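import Pool.Agent.MP_d97ab6_al.H19.Main
import Pool.Agent.MP_d97ab6_al.H76.Sep

/-! A nonarithmetic lattice in SU(2,1) outside the known commensurability classes. -/

namespace Pool.Agent.Results.MP_d97ab6_al.Class23

open Pool.Agent.MP_d97ab6_al.H19

theorem result :
    IsLattice Lam ∧ ¬ IsArith Lam ∧ adField Lam = Subfield.closure {√6} ∧
      (∀ (g : SU21) (Δ : Subgroup SU21),
        Subgroup.Commensurable (Lam.map (MulAut.conj g).toMonoidHom) Δ → √6 ∈ adField Δ) ∧
      ∀ p : ℕ, p = 3 ∨ p = 6 → ∀ g : Matrix.SpecialLinearGroup (Fin 3) ℂ,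
        ¬ Subgroup.Commensurable ((Lam.map SU21.subtype).map (MulAut.conj g).toMonoidHom)
          (Spor p) :=
  ⟨mainA.1, mainA.2.1, mainA.2.2.1, mainA.2.2.2,
    rowLam ▸ Pool.Agent.MP_d97ab6_al.H76.rowSep cuspClass⟩

end Pool.Agent.Results.MP_d97ab6_al.Class23
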