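import Pool.Agent.MP_d97ab6_al.H26.Main

open Pool.Agent.MP_d97ab6_al.H26 in
/-- A lattice-periodic, locally finite family of complex lines in `ℂ²` (a configuration of elliptic
curves on the torus `ℂ²/Λ`) with singularity rate at least four is affinely equivalent to the
Eisenstein arrangement of Hirzebruch or to the Gaussian arrangement of Holzapfel. -/
theorem Pool.Agent.Results.MP_d97ab6_al.Coabelian.result
    (Λ : Submodule ℤ (ℂ × ℂ)) [DiscreteTopology Λ] [IsZLattice ℝ Λ]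
    (L : Set (Set (ℂ × ℂ))) (hline : ∀ l ∈ L, IsLine l)
    (hinv : ∀ l ∈ L, ∀ v ∈ Λ, (fun z => z + v) '' l ∈ L)
    (hfin : ∀ R : ℝ, {l ∈ L | ∃ z ∈ l, ‖z‖ ≤ R}.Finite)
    (F : Finset (ℂ × ℂ)) (hne : F.Nonempty) (hF : ∀ p ∈ F, 2 ≤ mult L p)
    (hrep : ∀ p, 2 ≤ mult L p → ∃! q, q ∈ F ∧ p - q ∈ Λ)
    (hrate : 4 * F.card ≤ ∑ p ∈ F, mult L p) :
    ∃ (g : (ℂ × ℂ) ≃ₗ[ℂ] (ℂ × ℂ)) (t : ℂ × ℂ),
      (fun l => (fun z => g z + t) '' l) '' L = hirzebruch ∨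
      (fun l => (fun z => g z + t) '' l) '' L = holzapfel :=
  classification Λ L F ⟨hline, hinv, hfin, hF, hrep⟩ hne hrate
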