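import Pool.Agent.MP_d97ab6_al.H91.MainB
import Pool.Agent.MP_d97ab6_al.H91.KA
import Pool.Agent.MP_d97ab6_al.H91.KB91
import Pool.Agent.MP_d97ab6_al.H91.KC
import Pool.Agent.MP_d97ab6_al.H91.Grp91
import Pool.Agent.MP_d97ab6_al.H91.Cert91
import Pool.Agent.MP_d97ab6_al.H91.Ent
import Pool.Agent.MP_d97ab6_al.H91.En91
import Pool.Agent.MP_d97ab6_al.H91.Run
import Pool.Agent.MP_d97ab6_al.H91.Adj

/-! A nonarithmetic lattice in SU(3,1) with adjoint trace field generated by the root of two. -/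

namespace Pool.Agent.Results.MP_d97ab6_al.NewLattice

open Pool.Agent.MP_d97ab6_al.H91

theorem result :
    ∃ Γ : Subgroup SU31, IsLattice Γ ∧ ¬ IsArith Γ ∧ adField Γ = Subfield.closure {√2} ∧
      ∀ (g : SU31) (Δ : Subgroup SU31),
        Subgroup.Commensurable (Γ.map (MulAut.conj g).toMonoidHom) Δ → √2 ∈ adField Δ :=
  mainB rowKA (rowKB91 rowKA) (rowKC rowKA) rowGrp91 rowCert91 rowEnt rowEnum91 rowBall91 rowCh rowRun
    rowAdj

end Pool.Agent.Results.MP_d97ab6_al.NewLattice
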