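import Pool.Agent.MP_d97ab6_al.H32.Main

/-! A nonarithmetic lattice in SU(3,1) with adjoint trace field generated by the root of six. -/

namespace Pool.Agent.Results.MP_d97ab6_al.SecondLattice

open Pool.Agent.MP_d97ab6_al.H91

theorem result :
    ∃ Γ : Subgroup SU31, IsLattice Γ ∧ ¬ IsArith Γ ∧ adField Γ = Subfield.closure {√6} ∧
      ∀ (g : SU31) (Δ : Subgroup SU31),
        Subgroup.Commensurable (Γ.map (MulAut.conj g).toMonoidHom) Δ → √6 ∈ adField Δ :=
  Pool.Agent.MP_d97ab6_al.H32.main3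

end Pool.Agent.Results.MP_d97ab6_al.SecondLattice
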